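import Pool.Agent.Helper68.T3.GoalsT

/-!
# Project T3 (MP_a41896_nt): the numbers NUM3
-/

set_option autoImplicit false

namespace Pool.Agent.Helper45.T3.NUM3

/-- `s / q ≤ 1` -/
lemma le_q {s s' q q' : ℝ} (hq : 0 < q) (hq' : 0 < q') (hs' : 0 ≤ s')
    (h : s / q + s' / q' < 1) : s ≤ q := by
  have h1 : 0 ≤ s' / q' := div_nonneg hs' hq'.le
  have h2 : s / q < 1 := by linarith
  rw [div_lt_one hq] at h2
  exact h2.le

theorem t_NUM3 : Pool.Agent.Helper68.T3.NUM3 := by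
  intro m M k0 E ε θ c0 C CA C0 hε hk hθ hMθ hc0 hC hCA hC0
  set C1 : ℝ := 2 * M * m * c0 + 6 * (m * c0) + m * c0 + (C + 2 * (m * c0)) +
    (C + E * (m * c0) + 2 * C0) + C * (2 + CA) with hC1
  have hmc : 0 ≤ (m : ℝ) * c0 := by positivity
  have hC1n : 0 ≤ C1 := by positivity
  refine ⟨9 + C1, ?_⟩
  intro σ _ q y w g A2 T A X0s X a hm hq1 hq10 hKq hKT hy hg1 hg0 hw hX0 hX hXs ha hsum hA hA2
    hmain
  have hq0 : 1 ≤ q 0 := hq1.trans hq10
  have hq0p : 0 < q 0 := by linarith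
  have hq1p : 0 < q 1 := by linarith
  have hT : q 0 ≤ T := by
    have := mul_nonneg hC1n hq0p.le
    linarith
  have hTpos : 0 < T := by linarith
  have hs : (∑ i, a (0, i)) / q 0 + (∑ i, a (1, i)) / q 1 < 1 := by
    have h1 : ∑ h : Fin 2 × σ, a h / q h.1 =
        (∑ i, a (0, i)) / q 0 + (∑ i, a (1, i)) / q 1 := by
      rw [Fintype.sum_prod_type, Fin.sum_univ_two, Finset.sum_div, Finset.sum_div]
    rwa [← h1]
  set s0 := ∑ i, a (0, i) with hs0
  set s1 := ∑ i, a (1, i) with hs1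
  have hs0n : 0 ≤ s0 := Finset.sum_nonneg fun i _ => ha _
  have hs1n : 0 ≤ s1 := Finset.sum_nonneg fun i _ => ha _
  have hs0q : s0 ≤ q 0 := le_q hq0p hq1p hs1n hs
  have hs1q : s1 ≤ q 1 := le_q hq1p hq0p hs0n (by linarith)
  have hY0 := hXs 0
  have hY1 := hXs 1
  set Y0 := ∑ i, X (0, i) with hY0d
  set Y1 := ∑ i, X (1, i) with hY1d
  have hXi : ∀ i, X (0, i) ≤ Y0 := fun i =>
    Finset.single_le_sum (f := fun i => X (0, i)) (fun i _ => hX _) (Finset.mem_univ i)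
  have hY0n : 0 ≤ Y0 := Finset.sum_nonneg fun i _ => hX _
  have hY1n : 0 ≤ Y1 := Finset.sum_nonneg fun i _ => hX _
  obtain ⟨hy0, hqy0⟩ := hy 0
  obtain ⟨hy1, hqy1⟩ := hy 1
  have hw0 := hw 0
  have hw1 := hw 1
  rw [Fin.sum_univ_two, Fin.sum_univ_two] at hmain
  -- the first sum over the block 0
  have e1 : ∑ i, a (0, i) * (C + 2 * X (0, i) + g) ≤ s0 * (C + 2 * (y 0 + m * c0) + g) := by
    rw [hs0, Finset.sum_mul]
    refine Finset.sum_le_sum fun i _ => mul_le_mul_of_nonneg_left ?_ (ha _)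
    have := hXi i
    linarith
  have e1' : s0 * (C + 2 * (y 0 + m * c0) + g) ≤ q 0 * (C + 2 * (y 0 + m * c0) + g) :=
    mul_le_mul_of_nonneg_right hs0q (by positivity)
  -- the block 1
  have e2 : ∑ i, a (1, i) * (C + 2 * A2 + E * Y1) = s1 * (C + 2 * A2 + E * Y1) := by
    rw [hs1, Finset.sum_mul]
  have e2a : s1 * A2 ≤ C0 * q 0 := by
    rcases le_or_gt 0 A2 with h | h
    · exact (mul_le_mul_of_nonneg_right hs1q h).trans hA2
    · have h1 : s1 * A2 ≤ 0 := mul_nonpos_of_nonneg_of_nonpos hs1n h.le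
      have h2 : 0 ≤ C0 * q 0 := by positivity
      linarith
  have e2b : s1 * (C + E * Y1) ≤ q 1 * (C + E * (y 1 + m * c0)) :=
    mul_le_mul hs1q (by
      have := mul_le_mul_of_nonneg_left hY1 (Nat.cast_nonneg (α := ℝ) E)
      linarith) (by positivity) hq1p.le
  -- the weights
  have e3 : (M : ℝ) * w 0 ≤ T + M * m * c0 := by
    have h1 := mul_le_mul_of_nonneg_left hw0 (Nat.cast_nonneg (α := ℝ) M)
    have h2 := mul_le_mul_of_nonneg_right hMθ hTpos.le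
    nlinarith
  have e3' : (M : ℝ) * w 1 ≤ T + M * m * c0 := by
    have h1 := mul_le_mul_of_nonneg_left hw1 (Nat.cast_nonneg (α := ℝ) M)
    have h2 := mul_le_mul_of_nonneg_right hMθ hTpos.le
    nlinarith
  have e4 : (q 0 + 2) * Y0 ≤ (q 0 + 2) * (y 0 + m * c0) :=
    mul_le_mul_of_nonneg_left hY0 (by linarith)
  have e4' : (q 1 + 2) * Y1 ≤ (q 1 + 2) * (y 1 + m * c0) :=
    mul_le_mul_of_nonneg_left hY1 (by linarith)
  -- `K y_j ≤ 2 T`
  have e5 : (9 + C1) * y 0 ≤ 2 * T := by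
    have := mul_le_mul_of_nonneg_right (hKq.trans hq10) hy0
    linarith
  have e5' : (9 + C1) * y 1 ≤ 2 * T := by
    have := mul_le_mul_of_nonneg_right hKq hy1
    linarith
  -- the total
  have e6 : C * (q 0 + q 1 + A) ≤ C * (2 + CA) * q 0 := by
    have h1 : q 0 + q 1 + A ≤ (2 + CA) * q 0 := by linarith
    have := mul_le_mul_of_nonneg_left h1 hC
    linarith
  have hk1 : 0 < (k0 : ℝ) - 1 := by
    by_contra h
    push Not at h
    have h1 : ((k0 : ℝ) - 1) * ε ≤ 0 := mul_nonpos_of_nonpos_of_nonneg h hε.le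
    have h2 : (0 : ℝ) ≤ E := Nat.cast_nonneg _
    linarith
  have h7 : (14 + 2 * (E : ℝ)) * T ≤ ((k0 : ℝ) - 1) * (q 0 * g) := by
    have h1 := mul_le_mul_of_nonneg_right hk hTpos.le
    have h2 := mul_le_mul_of_nonneg_left hg1 hk1.le
    linarith
  -- the bound with `q 0`
  have m1 : (M : ℝ) * m * c0 * 1 ≤ (M : ℝ) * m * c0 * q 0 :=
    mul_le_mul_of_nonneg_left hq0 (by positivity)
  have m2 : (m : ℝ) * c0 * 1 ≤ (m : ℝ) * c0 * q 0 := mul_le_mul_of_nonneg_left hq0 hmc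
  have m3 : (m : ℝ) * c0 * q 1 ≤ (m : ℝ) * c0 * q 0 := mul_le_mul_of_nonneg_left hq10 hmc
  have m4 : C * q 1 ≤ C * q 0 := mul_le_mul_of_nonneg_left hq10 hC
  have m5 : (E : ℝ) * (m * c0) * q 1 ≤ E * (m * c0) * q 0 :=
    mul_le_mul_of_nonneg_left hq10 (by positivity)
  have m6 : (E : ℝ) * (q 1 * y 1) ≤ E * (2 * T) :=
    mul_le_mul_of_nonneg_left hqy1 (Nat.cast_nonneg _)
  have htot : (k0 : ℝ) * q 0 * g ≤ (12 + 2 * (E : ℝ)) * T + 2 * y 0 + 2 * y 1 + C1 * q 0 +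
      q 0 * g := by
    rw [hC1]
    rw [e2] at hmain
    have a1 : s1 * (C + 2 * A2 + E * Y1) = s1 * (C + E * Y1) + 2 * (s1 * A2) := by ring
    rw [a1] at hmain
    have a2 : q 0 * (C + 2 * (y 0 + m * c0) + g) =
      C * q 0 + 2 * (q 0 * y 0) + 2 * (m * c0) * q 0 + q 0 * g := by ring
    have a3 : q 1 * (C + E * (y 1 + m * c0)) =
      C * q 1 + E * (q 1 * y 1) + E * (m * c0) * q 1 := by ring
    have a4 : (q 0 + 2) * (y 0 + m * c0) = q 0 * y 0 + 2 * y 0 + m * c0 * q 0 + 2 * (m * c0 * 1) := by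
      ring
    have a5 : (q 1 + 2) * (y 1 + m * c0) = q 1 * y 1 + 2 * y 1 + m * c0 * q 1 + 2 * (m * c0 * 1) := by
      ring
    have a6 : (2 * (M : ℝ) * m * c0 + 6 * (m * c0) + m * c0 + (C + 2 * (m * c0)) +
        (C + E * (m * c0) + 2 * C0) + C * (2 + CA)) * q 0 =
      2 * ((M : ℝ) * m * c0 * q 0) + 7 * (m * c0 * q 0) + (C * q 0 + 2 * (m * c0) * q 0) +
        (C * q 0 + E * (m * c0) * q 0 + 2 * (C0 * q 0)) + C * (2 + CA) * q 0 := by ring
    rw [a6]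
    rw [a2] at e1'
    rw [a3] at e2b
    rw [a4] at e4
    rw [a5] at e4'
    linarith
  have h8 : (9 + C1) * (2 * y 0 + 2 * y 1 + C1 * q 0) ≤ (8 + C1) * T := by
    have := mul_le_mul_of_nonneg_left hKT hC1n
    nlinarith
  have h9 : 2 * y 0 + 2 * y 1 + C1 * q 0 < T := by
    by_contra h
    push Not at h
    have := mul_le_mul_of_nonneg_left h (show 0 ≤ 9 + C1 by linarith)
    linarith
  have h10 : (k0 : ℝ) * q 0 * g = ((k0 : ℝ) - 1) * (q 0 * g) + q 0 * g := by ring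
  linarith

end Pool.Agent.Helper45.T3.NUM3
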